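import Mathlib
import Pool.Agent.TH623.Annulus

/-!
# Annular rotation domains for conservative real polynomial Henon maps (MP_8a808a_an)

The map `(x, y) ↦ (x² + 2x - y, x)` is a conservative real polynomial Henon map whose only
periodic point is the fixed point `(0, 0)`. So `ℝ² ∖ {(0,0)}` is an invariant open annulus free
of periodic points.
-/

namespace Pool.Agent.Results.MP_8a808a_an.PlaneMinusFixedPoint

open Set Polynomial

/-- The Henon map `(x, y) ↦ (p(x) - b y, x)`. -/
noncomputable def henon (p : ℝ[X]) (b : ℝ) (z : ℝ × ℝ) : ℝ × ℝ := (p.eval z.1 - b * z.2, z.1)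

/-- `A` is an annular rotation domain of `f`: an open set homeomorphic to the open annulus
`ℝ/ℤ × (0,1)`, with `f(A) = A`, containing no periodic point of `f`. -/
def IsAnnularRotationDomain (f : ℝ × ℝ → ℝ × ℝ) (A : Set (ℝ × ℝ)) : Prop :=
  IsOpen A ∧ Nonempty (A ≃ₜ AddCircle (1 : ℝ) × Ioo (0 : ℝ) 1) ∧ f '' A = A ∧
    ∀ z ∈ A, ∀ n : ℕ, 0 < n → f^[n] z ≠ z

/-- The map `(x, y) ↦ (x² + 2x - y, x)`. -/
noncomputable def f : ℝ × ℝ → ℝ × ℝ := henon (X ^ 2 + 2 * X) 1

lemma f_apply (z : ℝ × ℝ) : f z = (z.1 ^ 2 + 2 * z.1 - z.2, z.1) := by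
  simp [f, henon]

lemma f_zero : f 0 = 0 := by
  rw [f_apply]
  ext <;> simp

lemma f_surj : Function.Surjective f := by
  intro w
  refine ⟨(w.2, w.2 ^ 2 + 2 * w.2 - w.1), ?_⟩
  rw [f_apply]
  ext <;> simp

lemma f_inj : Function.Injective f := by
  intro z w h
  rw [f_apply, f_apply, Prod.mk.injEq] at h
  obtain ⟨h1, h2⟩ := h
  rw [h2] at h1
  exact Prod.ext h2 (by linarith)

/-- The increment `x - y` never decreases along an orbit. -/
lemma diff_step (z : ℝ × ℝ) : (f z).1 - (f z).2 = (z.1 - z.2) + z.1 ^ 2 := by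
  rw [f_apply]; ring

lemma diff_iter (z : ℝ × ℝ) (n : ℕ) :
    (f^[n] z).1 - (f^[n] z).2 = (z.1 - z.2) + ∑ k ∈ Finset.range n, (f^[k] z).1 ^ 2 := by
  induction n with
  | zero => simp
  | succ n ih =>
    rw [Function.iterate_succ_apply', diff_step, ih, Finset.sum_range_succ]
    ring

/-- The only periodic point is the origin. -/
lemma eq_zero_of_periodic (z : ℝ × ℝ) (n : ℕ) (hn : 0 < n) (h : f^[n] z = z) : z = 0 := by
  have h2 : f^[2 * n] z = z := by
    rw [two_mul, Function.iterate_add_apply, h, h]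
  have h3 := diff_iter z (2 * n)
  rw [h2] at h3
  have h4 : ∑ k ∈ Finset.range (2 * n), (f^[k] z).1 ^ 2 = 0 := by linarith
  rw [Finset.sum_eq_zero_iff_of_nonneg (fun _ _ => sq_nonneg _)] at h4
  have h5 : z.1 = 0 := by
    have := h4 0 (Finset.mem_range.mpr (by omega))
    simpa using this
  have h6 : (f z).1 = 0 := by
    have := h4 1 (Finset.mem_range.mpr (by omega))
    simpa using this
  rw [f_apply, h5] at h6
  have h7 : z.2 = 0 := by
    simp at h6
    exact h6
  exact Prod.ext h5 h7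

/-- Q1 of MP_8a808a_an, answered yes: there are a real polynomial `p` of degree `2` and `b = 1`
such that the conservative Henon map `(x, y) ↦ (p(x) - b y, x)` has an annular rotation domain
in `ℝ²`, namely the complement of its unique periodic point. -/
theorem result : ∃ (p : ℝ[X]) (b : ℝ), 2 ≤ p.natDegree ∧ |b| = 1 ∧
    ∃ A : Set (ℝ × ℝ), IsAnnularRotationDomain (henon p b) A := by
  refine ⟨X ^ 2 + 2 * X, 1, ?_, abs_one, {0}ᶜ, isOpen_compl_singleton,
    Pool.Agent.TH623.Annulus.punctured_plane, ?_, ?_⟩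
  · have : (X ^ 2 + 2 * X : ℝ[X]).natDegree = 2 := by compute_degree!
    rw [this]
  · show f '' {0}ᶜ = {0}ᶜ
    rw [Set.image_compl_eq ⟨f_inj, f_surj⟩, Set.image_singleton, f_zero]
  · intro z hz n hn h
    exact hz (eq_zero_of_periodic z n hn h)

end Pool.Agent.Results.MP_8a808a_an.PlaneMinusFixedPoint
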